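import Mathlib
import Pool.Agent.Run7.h80.Sym.Full

/-!
# Minimal polynomials over a field with one coefficient that is not a rational integer
-/

set_option autoImplicit false

open Polynomial

namespace Pool.Agent.Run7.h80.Rem

open Pool.Agent.Run7.h80.Sym Pool.Agent.Run7.h80.Comp

lemma pcomp_scale_gen {R : Type*} [CommRing R] (g : ℤ[X]) (s a : R) :
    pcomp g (s * a) s = s ^ g.natDegree * aeval a g := by
  rw [aeval_eq_sum_range, pcomp, Finset.mul_sum]
  refine Finset.sum_congr rfl fun j hj => ?_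
  have hj' : j ≤ g.natDegree := by
    have := Finset.mem_range.1 hj
    omega
  have h1 : s ^ g.natDegree = s ^ j * s ^ (g.natDegree - j) := by
    rw [← pow_add]
    congr 1
    omega
  rw [h1, mul_pow, zsmul_eq_mul]
  ring

/-- the leading term of a homogenised composition -/
lemma sum_natDegree {R : Type*} [CommRing R] [IsDomain R] {P : R[X]} (hP : P.Monic) {a N d : ℕ}
    (ha : a < P.natDegree) (b : ℕ → R) (hd : d ≤ N) (hb : b d ≠ 0)
    (hmax : ∀ j, d < j → j ≤ N → b j = 0) :
    (∑ j ∈ Finset.range (N + 1), C (b j) * P ^ j * (X ^ a) ^ (N - j)) ≠ 0 ∧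
    (∑ j ∈ Finset.range (N + 1), C (b j) * P ^ j * (X ^ a) ^ (N - j)).natDegree ≤
      P.natDegree * d + a * (N - d) := by
  set w := P.natDegree with hw
  have hdeg : ∀ j, (P ^ j * (X ^ a) ^ (N - j)).natDegree = w * j + a * (N - j) ∧
      (P ^ j * (X ^ a) ^ (N - j)).Monic := by
    intro j
    have h1 : (P ^ j).Monic := hP.pow j
    have h2 : ((X ^ a : R[X]) ^ (N - j)).Monic := (monic_X_pow a).pow _
    refine ⟨?_, h1.mul h2⟩
    rw [h1.natDegree_mul h2, hP.natDegree_pow, (monic_X_pow a).natDegree_pow, natDegree_X_pow]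
    ring
  have hlt : ∀ j, j < d → w * j + a * (N - j) < w * d + a * (N - d) := by
    intro j hj
    obtain ⟨e, rfl⟩ : ∃ e, d = j + e := ⟨d - j, by omega⟩
    have he : 0 < e := by omega
    obtain ⟨M, rfl⟩ : ∃ M, N = j + e + M := ⟨N - (j + e), by omega⟩
    have e1 : j + e + M - j = e + M := by omega
    have e2 : j + e + M - (j + e) = M := by omega
    rw [e1, e2]
    nlinarith
  have hcoeff : (∑ j ∈ Finset.range (N + 1), C (b j) * P ^ j * (X ^ a) ^ (N - j)).coeff
      (w * d + a * (N - d)) = b d := by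
    rw [finsetSum_coeff, Finset.sum_eq_single d]
    · rw [mul_assoc, coeff_C_mul]
      have h3 := (hdeg d).2
      have h4 : (P ^ d * (X ^ a) ^ (N - d)).coeff (w * d + a * (N - d)) = 1 := by
        rw [← (hdeg d).1]
        exact h3
      rw [h4, mul_one]
    · intro j hj hjd
      rw [mul_assoc, coeff_C_mul]
      rcases lt_or_gt_of_ne hjd with h5 | h5
      · rw [coeff_eq_zero_of_natDegree_lt (by rw [(hdeg j).1]; exact hlt j h5), mul_zero]
      · rw [hmax j h5 (by have := Finset.mem_range.1 hj; omega), zero_mul]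
    · intro h
      exact absurd (Finset.mem_range.2 (by omega)) h
  constructor
  · intro h0
    rw [h0, coeff_zero] at hcoeff
    exact hb hcoeff.symm
  · refine natDegree_sum_le_of_forall_le _ _ fun j hj => ?_
    rw [mul_assoc]
    rcases le_or_gt j d with h5 | h5
    · refine (natDegree_C_mul_le _ _).trans ?_
      rw [(hdeg j).1]
      rcases eq_or_lt_of_le h5 with h6 | h6
      · rw [h6]
      · exact (hlt j h6).le
    · rw [hmax j h5 (by have := Finset.mem_range.1 hj; omega), C_0, zero_mul, natDegree_zero]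
      exact Nat.zero_le _

lemma pcomp_eq_sum (g P : ℤ[X]) (a : ℕ) : pcomp g P (X ^ a) =
    ∑ j ∈ Finset.range (g.natDegree + 1), C (g.coeff j) * P ^ j * (X ^ a) ^ (g.natDegree - j) := by
  rw [pcomp]
  refine Finset.sum_congr rfl fun j _ => ?_
  rw [eq_intCast C]

/-- the degree of the homogenised composition -/
lemma pcomp_degree {g P : ℤ[X]} (hg : g ≠ 0) (hP : P.Monic) {a : ℕ} (ha : a < P.natDegree) :
    pcomp g P (X ^ a) ≠ 0 ∧ (pcomp g P (X ^ a)).natDegree ≤ P.natDegree * g.natDegree := by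
  have h := sum_natDegree hP (N := g.natDegree) (d := g.natDegree) ha g.coeff le_rfl
    (leadingCoeff_ne_zero.2 hg) (fun j h1 h2 => by omega)
  rw [← pcomp_eq_sum, Nat.sub_self, mul_zero, add_zero] at h
  exact h

/-- the homogenised composition is primitive -/
lemma pcomp_primitive {g P : ℤ[X]} (hg : g.IsPrimitive) (hP : P.Monic) {a : ℕ}
    (ha : a < P.natDegree) : (pcomp g P (X ^ a)).IsPrimitive := by
  classical
  intro r hr
  by_contra hu
  obtain ⟨p, hp, hpr⟩ : ∃ p : ℕ, p.Prime ∧ (p : ℤ) ∣ r := by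
    obtain ⟨p, hp, hpr⟩ := Nat.exists_prime_and_dvd (n := r.natAbs) (by
      intro h
      exact hu (Int.isUnit_iff_natAbs_eq.2 h))
    exact ⟨p, hp, Int.natCast_dvd.2 hpr⟩
  have : Fact p.Prime := ⟨hp⟩
  have hmap : (pcomp g P (X ^ a)).map (Int.castRingHom (ZMod p)) = 0 := by
    ext i
    rw [coeff_map, coeff_zero, eq_intCast, ZMod.intCast_zmod_eq_zero_iff_dvd]
    have h1 : C (p : ℤ) ∣ pcomp g P (X ^ a) := (map_dvd C hpr).trans hr
    exact (C_dvd_iff_dvd_coeff _ _).1 h1 i
  have hg0 : g.map (Int.castRingHom (ZMod p)) ≠ 0 := by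
    intro h0
    have h1 : C (p : ℤ) ∣ g := by
      rw [C_dvd_iff_dvd_coeff]
      intro i
      have h2 := congrArg (fun q : (ZMod p)[X] => q.coeff i) h0
      simp only [coeff_map, coeff_zero, eq_intCast] at h2
      exact (ZMod.intCast_zmod_eq_zero_iff_dvd _ _).1 h2
    have h3 := hg _ h1
    have h4 := Int.isUnit_iff.1 h3
    have h5 := hp.two_le
    omega
  set gp := g.map (Int.castRingHom (ZMod p)) with hgp
  have hPm : (P.map (Int.castRingHom (ZMod p))).Monic := hP.map _
  have hPd : (P.map (Int.castRingHom (ZMod p))).natDegree = P.natDegree := hP.natDegree_map _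
  have h6 := (sum_natDegree hPm (N := g.natDegree) (d := gp.natDegree) (by rw [hPd]; exact ha)
    gp.coeff natDegree_map_le (leadingCoeff_ne_zero.2 hg0)
    (fun j h1 _ => coeff_eq_zero_of_natDegree_lt h1)).1
  apply h6
  rw [← hmap, pcomp_eq_sum, Polynomial.map_sum]
  refine Finset.sum_congr rfl fun j _ => ?_
  rw [Polynomial.map_mul, Polynomial.map_mul, Polynomial.map_pow, Polynomial.map_pow, map_C,
    Polynomial.map_pow, map_X, hgp, coeff_map]

end Pool.Agent.Run7.h80.Rem
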