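import Mathlib
import Pool.Agent.Run7.h80.Rem.A

/-!
# Degrees, and the bound for numbers with one coefficient that is not a rational integer
-/

set_option autoImplicit false

open Polynomial Module

namespace Pool.Agent.Run7.h80.Rem

open Pool.Agent.Run7.h80.Sym Pool.Agent.Run7.h80.Comp

/-- an irreducible integral polynomial with the zero `ξ` -/
lemma exists_irr {ξ : ℂ} (h : IsAlgebraic ℤ ξ) :
    ∃ g : ℤ[X], Irreducible g ∧ aeval ξ g = 0 := by
  obtain ⟨p, hp0, hp⟩ := h
  have key : ∀ p : ℤ[X], p ≠ 0 → aeval ξ p = 0 → ∃ g : ℤ[X], Irreducible g ∧ aeval ξ g = 0 := by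
    intro p
    induction p using WfDvdMonoid.induction_on_irreducible with
    | zero => exact fun h0 => absurd rfl h0
    | unit u hu =>
      intro _ h1
      exact absurd h1 (hu.map (aeval ξ : ℤ[X] →ₐ[ℤ] ℂ)).ne_zero
    | mul a i ha hi ih =>
      intro _ h1
      rw [map_mul] at h1
      rcases mul_eq_zero.1 h1 with h2 | h2
      · exact ⟨i, hi, h2⟩
      · exact ih ha h2
  exact key p hp0 hp

lemma natDegree_pos_of_root {g : ℤ[X]} {ξ : ℂ} (hg : Irreducible g) (h : aeval ξ g = 0) :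
    0 < g.natDegree := by
  rcases Nat.eq_zero_or_pos g.natDegree with h0 | h0
  · rw [eq_C_of_natDegree_eq_zero h0, aeval_C] at h
    have h1 : g.coeff 0 = 0 := by
      have h2 : ((g.coeff 0 : ℤ) : ℂ) = 0 := h
      exact_mod_cast h2
    rw [eq_C_of_natDegree_eq_zero h0, h1, C_0] at hg
    exact absurd rfl hg.ne_zero
  · exact h0

/-- the degree of the irreducible integral polynomial, and divisibility -/
lemma irr_facts {g : ℤ[X]} {ξ : ℂ} (hg : Irreducible g) (h : aeval ξ g = 0) :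
    g.natDegree = (minpoly ℚ ξ).natDegree ∧ ∀ F : ℤ[X], aeval ξ F = 0 → g ∣ F := by
  have hd := natDegree_pos_of_root hg h
  have hprim : g.IsPrimitive := hg.isPrimitive hd.ne'
  have hirr : Irreducible (g.map (Int.castRingHom ℚ)) :=
    (IsPrimitive.Int.irreducible_iff_irreducible_map_cast hprim).1 hg
  have hroot : ∀ F : ℤ[X], aeval ξ F = 0 → aeval ξ (F.map (Int.castRingHom ℚ)) = 0 := by
    intro F hF
    have : aeval ξ (F.map (algebraMap ℤ ℚ)) = 0 := by rw [aeval_map_algebraMap, hF]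
    exact this
  have hmin := minpoly.eq_of_irreducible hirr (hroot g h)
  have hinj : Function.Injective (Int.castRingHom ℚ) := Int.cast_injective
  have hlc : (g.map (Int.castRingHom ℚ)).leadingCoeff ≠ 0 :=
    leadingCoeff_ne_zero.2 hirr.ne_zero
  refine ⟨?_, fun F hF => ?_⟩
  · rw [← hmin, natDegree_mul_C (inv_ne_zero hlc), natDegree_map_eq_of_injective hinj]
  · rw [IsPrimitive.Int.dvd_iff_map_cast_dvd_map_cast _ _ hprim]
    have h1 : minpoly ℚ ξ ∣ F.map (Int.castRingHom ℚ) := minpoly.dvd ℚ ξ (hroot F hF)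
    rw [← hmin] at h1
    exact (dvd_mul_right _ _).trans h1

/-- the degree of a number over a field and over `ℚ` -/
lemma degree_mul_le {E : IntermediateField ℚ ℂ} {α ξ : ℂ} (hα : IsIntegral ℚ α) (hξE : ξ ∈ E)
    (hξα : ξ ∈ IntermediateField.adjoin ℚ {α}) :
    (minpoly ℚ ξ).natDegree * (minpoly E α).natDegree ≤ (minpoly ℚ α).natDegree := by
  set L := IntermediateField.adjoin ℚ {α} with hL
  set Q1 := IntermediateField.adjoin ℚ {ξ} with hQ1
  have hfd : FiniteDimensional ℚ L := IntermediateField.adjoin.finiteDimensional hα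
  have h1 : Q1 ≤ L := IntermediateField.adjoin_simple_le_iff.2 hξα
  have h2 : Q1 ≤ E := IntermediateField.adjoin_simple_le_iff.2 hξE
  let _ : Algebra Q1 L := (IntermediateField.inclusion h1).toRingHom.toAlgebra
  let _ : Algebra Q1 E := (IntermediateField.inclusion h2).toRingHom.toAlgebra
  have t1 : IsScalarTower ℚ Q1 L := IsScalarTower.of_algebraMap_eq fun x => rfl
  have t2 : IsScalarTower Q1 L ℂ := IsScalarTower.of_algebraMap_eq fun x => rfl
  have t3 : IsScalarTower Q1 E ℂ := IsScalarTower.of_algebraMap_eq fun x => rfl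
  have hfd2 : FiniteDimensional Q1 L := Module.Finite.of_restrictScalars_finite ℚ Q1 L
  have h3 : (minpoly ℚ α).natDegree = finrank ℚ Q1 * finrank Q1 L := by
    rw [finrank_mul_finrank, hL, IntermediateField.adjoin.finrank hα]
  have hξ : IsIntegral ℚ ξ := by
    have h4 : IsIntegral ℚ (⟨ξ, hξα⟩ : L) := IsIntegral.of_finite ℚ _
    exact h4.map (IntermediateField.val L)
  have h5 : finrank ℚ Q1 = (minpoly ℚ ξ).natDegree := IntermediateField.adjoin.finrank hξ
  rw [h3, h5]
  apply Nat.mul_le_mul_left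
  have h6 : (minpoly E α).natDegree ≤ (minpoly Q1 α).natDegree := by
    have h7 := minpoly.dvd_map_of_isScalarTower Q1 E α
    have h8 : IsIntegral Q1 α := hα.tower_top
    have h9 := natDegree_le_of_dvd h7 ((Polynomial.map_ne_zero_iff
      (algebraMap Q1 E).injective).2 (minpoly.ne_zero h8))
    rwa [natDegree_map] at h9
  refine h6.trans ?_
  have h10 : minpoly Q1 (algebraMap L ℂ ⟨α, IntermediateField.mem_adjoin_simple_self ℚ α⟩) =
      minpoly Q1 (⟨α, IntermediateField.mem_adjoin_simple_self ℚ α⟩ : L) :=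
    minpoly.algebraMap_eq (algebraMap L ℂ).injective _
  have h11 : algebraMap L ℂ ⟨α, IntermediateField.mem_adjoin_simple_self ℚ α⟩ = α := rfl
  rw [h11] at h10
  rw [h10]
  exact minpoly.natDegree_le _

/-- **The bound.** -/
theorem rem_core {E : IntermediateField ℚ ℂ} {α ξ : ℂ} {P : ℤ[X]} {a : ℕ} (hP : P.Monic)
    (ha : a < P.natDegree) (hα : IsIntegral ℚ α) (hα0 : α ≠ 0) (hξE : ξ ∈ E)
    (hPα : aeval α P = α ^ a * ξ) (hN : 3 ≤ (minpoly ℚ ξ).natDegree)
    (hw : P.natDegree ≤ (minpoly E α).natDegree)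
    (hex : ∀ ε δ c m : ℤ, |ε| = 1 → |δ| ≤ 1 →
      (LaurentPolynomial.T (-a) * toLaurent P : LP) ≠ LaurentPolynomial.C ε *
        LaurentPolynomial.T m + LaurentPolynomial.C δ * LaurentPolynomial.T (-m) +
          LaurentPolynomial.C c) {f : ℤ[X]} (hf : Irreducible f) (hfα : aeval α f = 0) :
    1 / (400000 * (P.natDegree : ℝ)) ≤ Real.log (MM f) / f.natDegree := by
  have hαa : α ^ a ≠ 0 := pow_ne_zero _ hα0
  -- `ξ` is in the field generated by `α`
  have hξα : ξ ∈ IntermediateField.adjoin ℚ {α} := by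
    have h1 : ξ = aeval α P / α ^ a := by
      rw [hPα]
      field_simp
    have h2 : α ∈ IntermediateField.adjoin ℚ {α} := IntermediateField.mem_adjoin_simple_self ℚ α
    rw [h1]
    refine div_mem ?_ (pow_mem h2 a)
    rw [aeval_eq_sum_range]
    refine sum_mem fun i _ => ?_
    rw [zsmul_eq_mul]
    exact mul_mem (intCast_mem _ _) (pow_mem h2 i)
  have hξi : IsIntegral ℚ ξ := by
    by_contra h
    rw [minpoly.eq_zero h, natDegree_zero] at hN
    omega
  have hξa : IsAlgebraic ℤ ξ := by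
    have h1 : IsAlgebraic ℚ ξ := hξi.isAlgebraic
    exact (IsFractionRing.isAlgebraic_iff ℤ ℚ ℂ).2 h1
  obtain ⟨g, hg, hgξ⟩ := exists_irr hξa
  obtain ⟨g1, -⟩ := irr_facts hg hgξ
  obtain ⟨f1, f2⟩ := irr_facts hf hfα
  have hgpos := natDegree_pos_of_root hg hgξ
  have hprim : g.IsPrimitive := hg.isPrimitive hgpos.ne'
  set F := pcomp g P (X ^ a) with hF
  obtain ⟨F1, F2⟩ := pcomp_degree hg.ne_zero hP ha
  have F3 := pcomp_primitive hprim hP ha
  rw [← hF] at F1 F2 F3
  have hFα : aeval α F = 0 := by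
    have h1 := map_pcomp ((aeval α : ℤ[X] →ₐ[ℤ] ℂ) : ℤ[X] →+* ℂ) g P (X ^ a)
    have h2 : ((aeval α : ℤ[X] →ₐ[ℤ] ℂ) : ℤ[X] →+* ℂ) P = α ^ a * ξ := hPα
    have h3 : ((aeval α : ℤ[X] →ₐ[ℤ] ℂ) : ℤ[X] →+* ℂ) (X ^ a) = α ^ a := by simp
    rw [h2, h3, pcomp_scale_gen, hgξ, mul_zero] at h1
    exact h1
  obtain ⟨q, hq⟩ := f2 F hFα
  have hq0 : q ≠ 0 := by
    rintro rfl
    rw [mul_zero] at hq
    exact F1 hq
  have hdeg : F.natDegree = f.natDegree + q.natDegree := by
    rw [hq, natDegree_mul hf.ne_zero hq0]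
  have hlow : P.natDegree * g.natDegree ≤ f.natDegree := by
    have h1 := degree_mul_le hα hξE hξα
    rw [← g1, ← f1] at h1
    calc P.natDegree * g.natDegree = g.natDegree * P.natDegree := Nat.mul_comm _ _
      _ ≤ g.natDegree * (minpoly E α).natDegree := Nat.mul_le_mul_left _ hw
      _ ≤ _ := h1
  have hq1 : q.natDegree = 0 := by omega
  have hfd : f.natDegree = P.natDegree * g.natDegree := by omega
  have hqu : IsUnit (q.coeff 0) := by
    apply F3
    rw [← eq_C_of_natDegree_eq_zero hq1, hq]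
    exact dvd_mul_left _ _
  have hMF : MM F = MM f := by
    rw [hq, eq_C_of_natDegree_eq_zero hq1, MM, MM, Polynomial.map_mul, mahlerMeasure_mul, map_C,
      mahlerMeasure_const, eq_intCast, Complex.norm_intCast]
    have h1 : |((q.coeff 0 : ℤ) : ℝ)| = 1 := by exact_mod_cast Int.isUnit_iff_abs_eq.1 hqu
    rw [h1, mul_one]
  obtain ⟨S, hS, hb⟩ := full (LaurentPolynomial.T (-a) * toLaurent P : LP) hex
  have hFL : toLaurent F = LaurentPolynomial.T ((a * g.natDegree : ℕ) : ℤ) *
      aeval (LaurentPolynomial.T (-a) * toLaurent P : LP) g := by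
    have h1 := map_pcomp (toLaurent : ℤ[X] →+* LP) g P (X ^ a)
    have e1 : (LaurentPolynomial.T (a : ℤ) : LP) * LaurentPolynomial.T (-a) = 1 := by
      rw [← LaurentPolynomial.T_add, add_neg_cancel, LaurentPolynomial.T_zero]
    have h2 : (toLaurent P : LP) = LaurentPolynomial.T (a : ℤ) *
        (LaurentPolynomial.T (-a) * toLaurent P) := by
      rw [← mul_assoc, e1, one_mul]
    have h3 : (toLaurent (X ^ a : ℤ[X]) : LP) = LaurentPolynomial.T (a : ℤ) := by
      rw [toLaurent_X_pow]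
    rw [h3] at h1
    have h4 : pcomp g (toLaurent P : LP) (LaurentPolynomial.T (a : ℤ)) =
        (LaurentPolynomial.T (a : ℤ)) ^ g.natDegree *
          aeval (LaurentPolynomial.T (-a) * toLaurent P : LP) g := by
      conv_lhs => rw [h2]
      exact pcomp_scale_gen g _ _
    rw [h4] at h1
    rw [hF]
    refine h1.trans ?_
    rw [LaurentPolynomial.T_pow]
    congr 2
    push_cast
    ring
  obtain ⟨b1, -⟩ := hb g F _ hg.ne_zero hFL
  have hN' : 3 ≤ g.natDegree := by omega
  rw [outE_irreducible hg hN' hS.2, hMF] at b1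
  have hpos : 0 < MM f := (Real.exp_pos _).trans_le b1
  have h5 : (g.natDegree : ℝ) / 400000 ≤ Real.log (MM f) := (Real.le_log_iff_exp_le hpos).2 b1
  have h6 : (0 : ℝ) < g.natDegree := by exact_mod_cast hgpos
  have h7 : (0 : ℝ) < P.natDegree := by exact_mod_cast (by omega : 0 < P.natDegree)
  rw [hfd]
  push_cast
  rw [div_le_div_iff₀ (by positivity) (by positivity)]
  have h8 : (P.natDegree : ℝ) * ((g.natDegree : ℝ) / 400000) ≤ P.natDegree * Real.log (MM f) :=
    mul_le_mul_of_nonneg_left h5 h7.le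
  nlinarith

end Pool.Agent.Run7.h80.Rem
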