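import Mathlib
import Pool.Agent.Run7.h80.Rem.GB
import Pool.Agent.Run7.h80.Rem.C

/-!
# The excluded shapes
-/

set_option autoImplicit false

open Polynomial Module

namespace Pool.Agent.Run7.h80.RemG

open Pool.Agent.Run7.h80.Sym Pool.Agent.Run7.h80.Comp Pool.Agent.Run7.h80.Rem

variable {Ω : Type} [Field Ω] [CharZero Ω] [Algebra ℚ Ω]

/-- **The bound for numbers with one coefficient which is not a rational integer.** -/
theorem rem_final {E : IntermediateField ℚ Ω} {α : Ω} (hα : IsIntegral ℚ α) (hα0 : α ≠ 0) {a : ℕ}
    (hone : ∀ i : ℕ, i ≠ a → ∃ c : ℤ, (minpoly E α).coeff i = c)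
    (hN : 3 ≤ (minpoly ℚ ((((minpoly E α).coeff a : E)) : Ω)).natDegree)
    (hex1 : ∀ b : E, minpoly E α ≠ X ^ (minpoly E α).natDegree + C b)
    (hex2 : ∀ b : E, minpoly E α ≠ X ^ (2 * a) + C b * X ^ a + 1 ∧
      minpoly E α ≠ X ^ (2 * a) + C b * X ^ a - 1) {f : ℤ[X]} (hf : Irreducible f)
    (hfα : aeval α f = 0) :
    1 / (400000 * ((minpoly E α).natDegree : ℝ)) ≤ Real.log (MM f) / f.natDegree := by
  set p := minpoly E α with hp
  have hαE : IsIntegral E α := hα.tower_top
  have hpm : p.Monic := minpoly.monic hαE
  set w := p.natDegree with hw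
  have hw0 : 0 < w := minpoly.natDegree_pos hαE
  set η : E := p.coeff a with hη
  have hηi : IsIntegral ℚ (η : Ω) := by
    by_contra h
    rw [minpoly.eq_zero h, natDegree_zero] at hN
    omega
  have hrat : ∀ q : ℚ, (η : Ω) ≠ algebraMap ℚ Ω q := by
    intro q h
    rw [h, minpoly.eq_X_sub_C, natDegree_X_sub_C] at hN
    omega
  have haw : a < w := by
    by_contra h
    push Not at h
    rcases eq_or_lt_of_le h with h1 | h1
    · apply hrat 1
      have h2 : η = 1 := by
        rw [hη, ← h1]
        exact hpm
      rw [h2, map_one]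
      rfl
    · apply hrat 0
      have h2 : η = 0 := by rw [hη, coeff_eq_zero_of_natDegree_lt h1]
      rw [h2, map_zero]
      rfl
  have hc : ∀ i : ℕ, ∃ c : ℤ, (i ≠ a → p.coeff i = c) ∧ (i = a → c = 0) := by
    intro i
    by_cases hi : i = a
    · exact ⟨0, fun h => absurd hi h, fun _ => rfl⟩
    · obtain ⟨c, h⟩ := hone i hi
      exact ⟨c, fun _ => h, fun h => absurd h hi⟩
  choose c hc1 hc2 using hc
  set R : ℤ[X] := ∑ i ∈ Finset.range w, C (c i) * X ^ i with hR
  have hRc : ∀ i, R.coeff i = if i < w then c i else 0 := by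
    intro i
    rw [hR, finsetSum_coeff]
    simp only [coeff_C_mul, coeff_X_pow, mul_ite, mul_one, mul_zero]
    rw [Finset.sum_ite_eq]
    simp only [Finset.mem_range]
  have hRd : R.degree < w := by
    rw [degree_lt_iff_coeff_zero]
    intro i hi
    rw [hRc, if_neg (by omega)]
  set P : ℤ[X] := X ^ w + R with hP
  have hPm : P.Monic := monic_X_pow_add hRd
  have hPd : P.natDegree = w := by
    rw [hP]
    exact natDegree_eq_of_degree_eq_some (by
      rw [degree_add_eq_left_of_degree_lt (by rwa [degree_X_pow]), degree_X_pow])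
  have hPc : ∀ i, P.coeff i = if i = w then 1 else if i < w then c i else 0 := by
    intro i
    rw [hP, coeff_add, coeff_X_pow, hRc]
    rcases lt_trichotomy i w with h | h | h
    · rw [if_neg (by omega), if_pos h, if_neg (by omega)]
      ring
    · rw [if_pos h, if_neg (by omega), if_pos h]
      ring
    · rw [if_neg (by omega), if_neg (by omega), if_neg (by omega)]
      ring
  clear_value P
  have hpc : ∀ i, p.coeff i = (P.coeff i : E) + if i = a then η else 0 := by
    intro i
    rw [hPc]
    rcases lt_trichotomy i w with h | h | h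
    · rw [if_neg (by omega), if_pos h]
      by_cases hi : i = a
      · rw [if_pos hi, hc2 i hi, hi]
        simp [hη]
      · rw [if_neg hi, hc1 i hi]
        simp
    · rw [if_pos h, if_neg (by omega), h]
      have : p.coeff w = 1 := hpm
      rw [this]
      simp
    · rw [if_neg (by omega), if_neg (by omega), if_neg (by omega),
        coeff_eq_zero_of_natDegree_lt h]
      simp
  have hmap : p = P.map (Int.castRingHom E) + C η * X ^ a := by
    refine Polynomial.ext fun i => ?_
    rw [hpc]
    conv_rhs => rw [coeff_add, coeff_map, coeff_C_mul, coeff_X_pow, eq_intCast]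
    split_ifs <;> simp
  have hPα : aeval α P = α ^ a * (-(η : Ω)) := by
    have h1 : aeval α p = 0 := minpoly.aeval E α
    rw [hmap, map_add, map_mul, map_pow, aeval_X, aeval_C] at h1
    have h2 : aeval α (P.map (Int.castRingHom E)) = aeval α P := by
      have := aeval_map_algebraMap E α P
      exact this
    rw [h2] at h1
    have h3 : algebraMap E Ω η = (η : Ω) := rfl
    rw [h3] at h1
    linear_combination h1
  have hξE : -(η : Ω) ∈ E := neg_mem η.2
  have hξN : 3 ≤ (minpoly ℚ (-(η : Ω))).natDegree := by
    have h2 : (minpoly ℚ (-(η : Ω))).natDegree = (minpoly ℚ (η : Ω)).natDegree := by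
      have h3 : IsIntegral ℚ (η : Ω) := hηi
      rw [← IntermediateField.adjoin.finrank h3.neg, ← IntermediateField.adjoin.finrank h3]
      have h4 : IntermediateField.adjoin ℚ {-(η : Ω)} = IntermediateField.adjoin ℚ {(η : Ω)} := by
        apply le_antisymm
        · rw [IntermediateField.adjoin_simple_le_iff]
          exact neg_mem (IntermediateField.mem_adjoin_simple_self ℚ _)
        · rw [IntermediateField.adjoin_simple_le_iff]
          have := neg_mem (IntermediateField.mem_adjoin_simple_self ℚ (-(η : Ω)))
          rwa [neg_neg] at this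
      rw [h4]
    rw [h2]
    exact hN
  have hp0 : p.coeff 0 ≠ 0 := minpoly.coeff_zero_ne_zero hαE hα0
  -- the excluded shapes
  have key : ∀ (m : ℕ) (u v c' : ℤ), 0 < m → |u| ≤ 1 → |v| ≤ 1 →
      (LaurentPolynomial.T (-a) * toLaurent P : LP) ≠ LaurentPolynomial.C u *
        LaurentPolynomial.T m + LaurentPolynomial.C v * LaurentPolynomial.T (-m) +
          LaurentPolynomial.C c' := by
    intro m u v c' hm hu hv h
    have hs := coeff_shape h
    have h1 := hs w
    rw [hPc, if_pos rfl, if_neg (by omega : ¬ w = a), if_neg (by omega : ¬ w + m = a)] at h1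
    have hwm : w = a + m ∧ u = 1 := by
      by_cases h2 : w = a + m
      · rw [if_pos h2] at h1
        exact ⟨h2, by omega⟩
      · rw [if_neg h2] at h1
        omega
    obtain ⟨hwm, rfl⟩ := hwm
    rcases Nat.eq_zero_or_pos a with ha0 | ha0
    · -- the binomial
      apply hex1 ((c' : E) + η)
      refine Polynomial.ext fun i => ?_
      rw [hpc, hs i, coeff_add, coeff_X_pow, coeff_C, ha0, hwm, ha0]
      by_cases e1 : i = 0 + m
      · rw [if_pos e1, if_neg (by omega), if_neg (by omega), if_neg (by omega), if_pos e1,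
          if_neg (by omega)]
        simp
      · by_cases e2 : i = 0
        · rw [if_neg e1, if_pos e2, if_neg (by omega), if_pos e2, if_neg e1, if_pos e2]
          simp
        · rw [if_neg e1, if_neg e2, if_neg (by omega), if_neg e2, if_neg e1, if_neg e2]
          simp
    · have h3 := hpc 0
      rw [hs 0, if_neg (by omega : ¬ 0 = a + m), if_neg (by omega : ¬ 0 = a),
        if_neg (by omega : ¬ 0 = a)] at h3
      have ham : a = m := by
        by_contra hne
        rw [if_neg (by omega)] at h3
        apply hp0
        rw [h3]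
        simp
      subst ham
      have hv0 : v ≠ 0 := by
        rintro rfl
        apply hp0
        rw [h3]
        simp
      have hv1 : v = 1 ∨ v = -1 := by
        have := abs_le.1 hv
        omega
      have hshape : ∀ i, p.coeff i = (if i = 2 * a then 1 else 0) +
          (if i = a then ((c' : E) + η) else 0) + (if i = 0 then (v : E) else 0) := by
        intro i
        rw [hpc, hs i]
        have f1 : (i = a + a) ↔ (i = 2 * a) := by omega
        have f2 : (i + a = a) ↔ (i = 0) := by omega
        simp only [f1, f2]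
        push_cast
        split_ifs <;> ring
      rcases hv1 with hv1 | hv1
      · apply (hex2 ((c' : E) + η)).1
        refine Polynomial.ext fun i => ?_
        rw [hshape, coeff_add, coeff_add, coeff_X_pow, coeff_C_mul, coeff_X_pow, coeff_one, hv1]
        split_ifs <;> push_cast <;> ring
      · apply (hex2 ((c' : E) + η)).2
        refine Polynomial.ext fun i => ?_
        rw [hshape, coeff_sub, coeff_add, coeff_X_pow, coeff_C_mul, coeff_X_pow, coeff_one, hv1]
        split_ifs <;> push_cast <;> ring
  have hex : ∀ ε δ c m : ℤ, |ε| = 1 → |δ| ≤ 1 →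
      (LaurentPolynomial.T (-a) * toLaurent P : LP) ≠ LaurentPolynomial.C ε *
        LaurentPolynomial.T m + LaurentPolynomial.C δ * LaurentPolynomial.T (-m) +
          LaurentPolynomial.C c := by
    intro ε δ c' m hε hδ h
    rcases lt_trichotomy m 0 with hm | hm | hm
    · obtain ⟨n, hn⟩ : ∃ n : ℕ, (n : ℤ) = -m := ⟨(-m).toNat, by omega⟩
      apply key n δ ε c' (by omega) hδ hε.le
      rw [h, hn, neg_neg]
      ring
    · have h1 : (LaurentPolynomial.T (-a) * toLaurent P : LP) = LaurentPolynomial.C 0 *
          LaurentPolynomial.T ((1 : ℕ) : ℤ) + LaurentPolynomial.C 0 *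
            LaurentPolynomial.T (-((1 : ℕ) : ℤ)) + LaurentPolynomial.C (ε + δ + c') := by
        rw [h, hm, neg_zero, LaurentPolynomial.T_zero, map_add, map_add, map_zero]
        ring
      exact key 1 0 0 _ one_pos (by norm_num) (by norm_num) h1
    · obtain ⟨n, hn⟩ : ∃ n : ℕ, (n : ℤ) = m := ⟨m.toNat, by omega⟩
      apply key n ε δ c' (by omega) hε.le hδ
      rw [h, hn]
  have := rem_core hPm (by rw [hPd]; exact haw) hα hα0 hξE hPα hξN (by rw [hPd]) hex hf hfα
  rwa [hPd] at this

end Pool.Agent.Run7.h80.RemG
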