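import Mathlib
import Pool.Agent.Run7.h80.Rem.GC
import Pool.Agent.Results.MP_187c26_nt.RadicalTranslates
import Pool.Agent.Run7.h22.AbsN
import Pool.Agent.Run7.h22.Rel8
import Pool.Agent.Run7.h22.Sal2

/-!
# Hypersurfaces over a field which contain a translate of a subtorus of codimension one
-/

set_option autoImplicit false

open Polynomial Module

namespace Pool.Agent.Run7.h80.RemG

open Pool.Agent.Results.MP_187c26_nt.RadicalTranslates (translate chi chi_apply chi_injective
  mono_eval)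
open Pool.Agent.H58P (ht)
open Pool.Agent.H58R (ht_nonneg ht_zpow ht_prod_le)

/-- the restriction of the exponents to the subtorus -/
def ru {n d : ℕ} (e : Fin n → Fin d → ℤ) (m : Fin n →₀ ℕ) : Fin d → ℤ :=
  fun j => ∑ i, (m i : ℤ) * e i j

open Classical in
/-- the sums over the classes of monomials vanish -/
lemma class_sum {n d : ℕ} (x : Fin n → AlgebraicClosure ℚ) (e : Fin n → Fin d → ℤ)
    (f : MvPolynomial (Fin n) (AlgebraicClosure ℚ))
    (hV : ∀ y ∈ translate x e, MvPolynomial.eval y f = 0) (w : Fin d → ℤ) :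
    ∑ m ∈ f.support.filter (fun m => ru e m = w), f.coeff m * ∏ i, x i ^ m i = 0 := by
  by_cases hw : w ∈ f.support.image (ru e)
  swap
  · rw [Finset.filter_eq_empty_iff.2, Finset.sum_empty]
    intro m hm h
    exact hw (Finset.mem_image.2 ⟨m, hm, h⟩)
  have hli : LinearIndependent (AlgebraicClosure ℚ)
      (fun w : f.support.image (ru e) =>
        (chi (w : Fin d → ℤ) : (Fin d → (AlgebraicClosure ℚ)ˣ) → AlgebraicClosure ℚ)) := by
    refine (linearIndependent_monoidHom (Fin d → (AlgebraicClosure ℚ)ˣ)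
      (AlgebraicClosure ℚ)).comp (fun w : f.support.image (ru e) => chi (w : Fin d → ℤ)) ?_
    intro w w' h
    exact Subtype.ext (chi_injective h)
  rw [Fintype.linearIndependent_iff] at hli
  have h0 := hli (fun w => ∑ m ∈ f.support.filter (fun m => ru e m = w),
    f.coeff m * ∏ i, x i ^ m i) (by
      funext t
      rw [Finset.sum_apply, Pi.zero_apply, ← hV (fun i => x i *
        ∏ j, (t j : AlgebraicClosure ℚ) ^ e i j) ⟨t, fun _ => rfl⟩, MvPolynomial.eval_eq']
      rw [Finset.sum_coe_sort (f.support.image (ru e)) (fun w => ((∑ m ∈ f.support.filter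
        (fun m => ru e m = w), f.coeff m * ∏ i, x i ^ m i) •
          (chi w : (Fin d → (AlgebraicClosure ℚ)ˣ) → AlgebraicClosure ℚ)) t)]
      rw [← Finset.sum_fiberwise_of_maps_to (s := f.support) (t := f.support.image (ru e))
        (g := ru e) (fun m hm => Finset.mem_image_of_mem _ hm)]
      refine Finset.sum_congr rfl fun w _ => ?_
      rw [Pi.smul_apply, smul_eq_mul, Finset.sum_mul]
      refine Finset.sum_congr rfl fun m hm => ?_
      rw [Finset.mem_filter] at hm
      rw [mul_assoc]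
      congr 1
      have := mono_eval x e t (fun i => ((m : Fin n →₀ ℕ) i : ℤ))
      simp only [zpow_natCast] at this
      rw [this, ← hm.2]
      rfl)
  exact h0 ⟨w, hw⟩

/-- A hypersurface over a field `L` which contains a translate of a subtorus of codimension one, given by
`y ^ a = β`, has degrees at least `[L(β) : L] |a_i|`. -/
lemma exists_long {n d : ℕ} (L : IntermediateField ℚ (AlgebraicClosure ℚ))
    (x : Fin n → AlgebraicClosure ℚ) (e : Fin n → Fin d → ℤ) (a : Fin n → ℤ)
    (hx : ∀ i, x i ≠ 0) (ha0 : a ≠ 0)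
    (ha : ∀ v : Fin n → ℤ, (∀ j, ∑ i, v i * e i j = 0) → ∃ k : ℤ, v = k • a)
    (f : MvPolynomial (Fin n) (AlgebraicClosure ℚ)) (hf : f ≠ 0) (hfL : ∀ m, f.coeff m ∈ L)
    (hV : ∀ y ∈ translate x e, MvPolynomial.eval y f = 0) :
    ∃ J : ℕ, (minpoly L (∏ i, x i ^ a i)).natDegree ≤ J ∧
      ∀ i, (J : ℤ) * |a i| ≤ (f.degreeOf i : ℤ) := by
  classical
  set β := ∏ i, x i ^ a i with hβ
  have hβ0 : β ≠ 0 := Finset.prod_ne_zero_iff.2 fun i _ => zpow_ne_zero _ (hx i)
  obtain ⟨m0, hm0⟩ := MvPolynomial.support_nonempty.2 hf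
  set S := f.support.filter (fun m => ru e m = ru e m0) with hS
  have hm0S : m0 ∈ S := Finset.mem_filter.2 ⟨hm0, rfl⟩
  have hsum := class_sum x e f hV (ru e m0)
  have hk : ∀ m : Fin n →₀ ℕ, ∃ k : ℤ, m ∈ S → ∀ i, (m i : ℤ) = m0 i + k * a i := by
    intro m
    by_cases hm : m ∈ S
    · have h1 := (Finset.mem_filter.1 hm).2
      obtain ⟨k, hk⟩ := ha (fun i => (m i : ℤ) - m0 i) (by
        intro j
        have h2 := congrFun h1 j
        simp only [ru] at h2
        have h3 : ∑ i, ((m i : ℤ) - m0 i) * e i j =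
            ∑ i, (m i : ℤ) * e i j - ∑ i, (m0 i : ℤ) * e i j := by
          rw [← Finset.sum_sub_distrib]
          exact Finset.sum_congr rfl fun i _ => by ring
        rw [h3, h2, sub_self])
      refine ⟨k, fun _ i => ?_⟩
      have h4 := congrFun hk i
      simp only [Pi.smul_apply, smul_eq_mul] at h4
      omega
    · exact ⟨0, fun h => absurd h hm⟩
  choose k hk using hk
  obtain ⟨i0, hi0⟩ := Function.ne_iff.1 ha0
  have hinj : ∀ m ∈ S, ∀ m' ∈ S, k m = k m' → m = m' := by
    intro m hm m' hm' h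
    ext i
    have h1 := hk m hm i
    have h2 := hk m' hm' i
    rw [h] at h1
    omega
  obtain ⟨mn, hmn, hmin⟩ := Finset.exists_min_image S k ⟨m0, hm0S⟩
  obtain ⟨mx, hmx, hmax⟩ := Finset.exists_max_image S k ⟨m0, hm0S⟩
  -- the polynomial in one variable
  set φ : L[X] := ∑ m ∈ S, C (⟨f.coeff m, hfL m⟩ : L) * X ^ (k m - k mn).toNat with hφ
  have hφ0 : φ ≠ 0 := by
    intro h
    have h1 := congrArg (fun q : L[X] => q.coeff (k m0 - k mn).toNat) h
    simp only [coeff_zero] at h1
    rw [hφ, finsetSum_coeff, Finset.sum_eq_single m0] at h1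
    · rw [coeff_C_mul, coeff_X_pow, if_pos rfl, mul_one] at h1
      have h2 := congrArg (fun z : L => (z : AlgebraicClosure ℚ)) h1
      exact MvPolynomial.mem_support_iff.1 hm0 h2
    · intro m hm hne
      rw [coeff_C_mul, coeff_X_pow, if_neg, mul_zero]
      intro h2
      apply hne
      apply hinj m hm m0 hm0S
      have h3 := hmin m hm
      have h4 := hmin m0 hm0S
      omega
    · intro h2
      exact absurd hm0S h2
  have hφβ : aeval β φ = 0 := by
    rw [hφ, map_sum]
    have h1 : ∀ m ∈ S, aeval β (C (⟨f.coeff m, hfL m⟩ : L) * X ^ (k m - k mn).toNat) =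
        (f.coeff m * ∏ i, x i ^ m i) * ((∏ i, x i ^ m0 i)⁻¹ * β ^ (-k mn)) := by
      intro m hm
      rw [map_mul, map_pow, aeval_X, aeval_C]
      have h2 : algebraMap L (AlgebraicClosure ℚ) ⟨f.coeff m, hfL m⟩ = f.coeff m := rfl
      rw [h2, mul_assoc]
      congr 1
      have h3 : ∏ i, x i ^ m i = (∏ i, x i ^ m0 i) * β ^ k m := by
        rw [hβ, ← Finset.prod_zpow, ← Finset.prod_mul_distrib]
        refine Finset.prod_congr rfl fun i _ => ?_
        rw [← zpow_natCast, ← zpow_natCast, hk m hm i, zpow_add₀ (hx i), ← zpow_mul,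
          mul_comm (a i)]
      have h4 : (∏ i, x i ^ m0 i) ≠ 0 := Finset.prod_ne_zero_iff.2 fun i _ => pow_ne_zero _ (hx i)
      have h5 : β ^ (k m - k mn).toNat = β ^ k m * β ^ (-k mn) := by
        rw [← zpow_add₀ hβ0, ← zpow_natCast]
        congr 1
        have := hmin m hm
        omega
      rw [h3, h5]
      field_simp
    rw [Finset.sum_congr rfl h1, ← Finset.sum_mul, hsum, zero_mul]
  have hdeg : (minpoly L β).natDegree ≤ φ.natDegree :=
    natDegree_le_of_dvd (minpoly.dvd L β hφβ) hφ0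
  have hdeg2 : φ.natDegree ≤ (k mx - k mn).toNat := by
    rw [hφ]
    refine natDegree_sum_le_of_forall_le _ _ fun m hm => ?_
    refine (natDegree_C_mul_X_pow_le _ _).trans ?_
    have := hmax m hm
    omega
  refine ⟨(k mx - k mn).toNat, hdeg.trans hdeg2, fun i => ?_⟩
  have h1 := hk mx hmx i
  have h2 := hk mn hmn i
  have h3 := MvPolynomial.monomial_le_degreeOf i (Finset.mem_filter.1 hmx).1
  have h4 := MvPolynomial.monomial_le_degreeOf i (Finset.mem_filter.1 hmn).1
  have h5 : ((k mx - k mn).toNat : ℤ) = k mx - k mn := by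
    have := hmin mx hmx
    omega
  have h6 : (k mx - k mn) * a i = (mx i : ℤ) - mn i := by rw [h1, h2]; ring
  have h7 : ((k mx - k mn).toNat : ℤ) * |a i| = |(mx i : ℤ) - mn i| := by
    have h8 : |k mx - k mn| = ((k mx - k mn).toNat : ℤ) := by
      rw [h5]
      apply abs_of_nonneg
      have := hmin mx hmx
      omega
    rw [← h6, abs_mul, h8]
  rw [h7, abs_le]
  constructor <;> omega

/-- the height of an algebraic integer is given by the Mahler measure -/
lemma ht_eq_MM {β : AlgebraicClosure ℚ} (hβ : IsIntegral ℤ β) :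
    ((minpoly ℤ β).natDegree : ℝ) * ht β = Real.log (Pool.Agent.Run7.h80.Comp.MM (minpoly ℤ β)) := by
  have hβq : IsIntegral ℚ β := hβ.tower_top
  have hfd : FiniteDimensional ℚ (IntermediateField.adjoin ℚ {β}) :=
    IntermediateField.adjoin.finiteDimensional hβq
  have hnf : NumberField (IntermediateField.adjoin ℚ {β}) :=
    { to_charZero := inferInstance
      to_finiteDimensional := by convert hfd }
  set γ : IntermediateField.adjoin ℚ {β} := IntermediateField.AdjoinSimple.gen ℚ β with hγ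
  have hγβ : algebraMap (IntermediateField.adjoin ℚ {β}) (AlgebraicClosure ℚ) γ = β :=
    IntermediateField.AdjoinSimple.algebraMap_gen ℚ β
  have hγi : IsIntegral ℤ γ := by
    rw [← hγβ] at hβ
    exact (isIntegral_algebraMap_iff
      (algebraMap (IntermediateField.adjoin ℚ {β}) (AlgebraicClosure ℚ)).injective).mp hβ
  have hγm : minpoly ℤ γ = minpoly ℤ β := by
    have h0 := minpoly.algebraMap_eq (A := ℤ) (algebraMap (IntermediateField.adjoin ℚ {β})
      (AlgebraicClosure ℚ)).injective γ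
    rw [hγβ] at h0
    exact h0.symm
  have h1 := Pool.Agent.Run7.h22.lh_ht _
    (algebraMap (IntermediateField.adjoin ℚ {β}) (AlgebraicClosure ℚ)) γ
  have h2 := Pool.Agent.Run7.h22.logHeight₁_eq_lam hγi
  have h3 := Pool.Agent.Run7.h22.lam_eq_MM hγi
  have hγm' : ∀ inst : Algebra ℤ (IntermediateField.adjoin ℚ {β}),
      @minpoly ℤ (IntermediateField.adjoin ℚ {β}) _ _ inst γ = minpoly ℤ β := by
    intro inst
    rw [← hγm]
    congr 1
    exact Subsingleton.elim _ _
  rw [hγm'] at h3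
  rw [hγβ] at h1
  have hpos : (0 : ℝ) < finrank ℚ (IntermediateField.adjoin ℚ {β}) := by
    exact_mod_cast (finrank_pos : 0 < finrank ℚ (IntermediateField.adjoin ℚ {β}))
  have h4 : Pool.Agent.H388SL.MM (minpoly ℤ β) = Pool.Agent.Run7.h80.Comp.MM (minpoly ℤ β) := rfl
  rw [← h2, h1, h4] at h3
  have h5 : (finrank ℚ (IntermediateField.adjoin ℚ {β}) : ℝ) *
      (((minpoly ℤ β).natDegree : ℝ) * ht β) = finrank ℚ (IntermediateField.adjoin ℚ {β}) *
        Real.log (Pool.Agent.Run7.h80.Comp.MM (minpoly ℤ β)) := by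
    rw [← h3]
    ring
  exact mul_left_cancel₀ hpos.ne' h5

/-- **from the inequality for the value of the monomial to the inequality for translates** -/
lemma translate_ge {n d : ℕ} (L : IntermediateField ℚ (AlgebraicClosure ℚ))
    (x : Fin n → AlgebraicClosure ℚ) (e : Fin n → Fin d → ℤ) (a : Fin n → ℤ)
    (hx : ∀ i, x i ≠ 0) (ha0 : a ≠ 0)
    (ha : ∀ v : Fin n → ℤ, (∀ j, ∑ i, v i * e i j = 0) ↔ ∃ k : ℤ, v = k • a) {c : ℝ}
    (hc : c ≤ (minpoly L (∏ i, x i ^ a i)).natDegree * ht (∏ i, x i ^ a i))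
    (f : MvPolynomial (Fin n) (AlgebraicClosure ℚ)) (hf : f ≠ 0) (hfL : ∀ m, f.coeff m ∈ L)
    (hV : ∀ y ∈ translate x e, MvPolynomial.eval y f = 0) :
    ∀ y ∈ translate x e, c ≤ ∑ i, (f.degreeOf i : ℝ) * NumberField.absLogHeight₁ (y i) := by
  obtain ⟨J, hJ, hJd⟩ := exists_long L x e a hx ha0 (fun v hv => (ha v).1 hv) f hf hfL hV
  have hve : ∀ j, ∑ i, a i * e i j = 0 := (ha a).2 ⟨1, by rw [one_smul]⟩
  rintro y ⟨t, hyt⟩
  have hht : ∀ w : AlgebraicClosure ℚ, NumberField.absLogHeight₁ w = ht w := fun w =>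
    Pool.Agent.H58P.absLogHeight₁_eq _
  simp only [hht]
  have hy0 : ∀ i, y i ≠ 0 := by
    intro i
    rw [hyt i]
    exact mul_ne_zero (hx i) (Finset.prod_ne_zero_iff.2 fun j _ => zpow_ne_zero _ (Units.ne_zero _))
  have hyx : ∏ i, y i ^ a i = ∏ i, x i ^ a i := by
    have h2 : ∏ i, y i ^ a i =
        ∏ i, (x i * ∏ j, (t j : AlgebraicClosure ℚ) ^ e i j) ^ a i :=
      Finset.prod_congr rfl fun i _ => by rw [hyt i]
    rw [h2, mono_eval]
    have h3 : chi (fun j => ∑ i, a i * e i j) t = 1 := by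
      rw [chi_apply]
      exact Finset.prod_eq_one fun j _ => by rw [hve j, zpow_zero]
    rw [h3, mul_one]
  rw [← hyx] at hc hJ
  have hJR : ((minpoly L (∏ i, y i ^ a i)).natDegree : ℝ) ≤ J := by exact_mod_cast hJ
  calc c ≤ (minpoly L (∏ i, y i ^ a i)).natDegree * ht (∏ i, y i ^ a i) := hc
    _ ≤ J * ht (∏ i, y i ^ a i) := mul_le_mul_of_nonneg_right hJR (ht_nonneg _)
    _ ≤ J * ∑ i, ht (y i ^ a i) := mul_le_mul_of_nonneg_left (ht_prod_le _ _) (Nat.cast_nonneg _)
    _ = ∑ i, (J : ℝ) * ht (y i ^ a i) := by rw [Finset.mul_sum]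
    _ ≤ ∑ i, (f.degreeOf i : ℝ) * ht (y i) := by
        refine Finset.sum_le_sum fun i _ => ?_
        rw [ht_zpow _ (hy0 i), ← mul_assoc]
        refine mul_le_mul_of_nonneg_right ?_ (ht_nonneg _)
        have h4 : (((J : ℤ) * |a i| : ℤ) : ℝ) ≤ ((f.degreeOf i : ℤ) : ℝ) := by
          exact_mod_cast hJd i
        push_cast at h4
        exact h4

end Pool.Agent.Run7.h80.RemG
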